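import Pool.Agent.helper64.QF.Spec

/-!
# Project `pq:` (MP_b9b9c0_an): module `HIL`: the dual bound
-/

set_option autoImplicit false

namespace Pool.Agent.helper64.QF

open Metric MeasureTheory Set Filter Topology
open Pool.Agent.helper37.PR

/-- One term of the sum of squares. -/
theorem HIL_term {H : Type*} [NormedAddCommGroup H] [InnerProductSpace ℂ H] (x w f : H) (a b p q : ℂ)
    (hw : inner ℂ w x = -p) (hf : inner ℂ f x = -q) :
    ‖x + a • w + b • f‖ ^ 2 = ‖x‖ ^ 2 + ‖a‖ ^ 2 * ‖w‖ ^ 2 + ‖b‖ ^ 2 * ‖f‖ ^ 2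
      - 2 * (a * (starRingEnd ℂ) p).re - 2 * (b * (starRingEnd ℂ) q).re
      + 2 * ((starRingEnd ℂ) a * b * inner ℂ w f).re := by
  have h1 : inner ℂ x w = -(starRingEnd ℂ) p := by
    rw [← inner_conj_symm, hw, map_neg]
  have h2 : inner ℂ x f = -(starRingEnd ℂ) q := by
    rw [← inner_conj_symm, hf, map_neg]
  rw [@norm_add_sq ℂ H _ _ _, @norm_add_sq ℂ H _ _ _, inner_add_left, inner_smul_right, inner_smul_right,
    inner_smul_right, inner_smul_left, h1, h2, norm_smul, norm_smul, mul_pow, mul_pow]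
  have e1 : RCLike.re (a * -(starRingEnd ℂ) p) = -(a * (starRingEnd ℂ) p).re := by
    simp
  have e2 : RCLike.re (b * -(starRingEnd ℂ) q + b * ((starRingEnd ℂ) a * inner ℂ w f)) =
      -(b * (starRingEnd ℂ) q).re + ((starRingEnd ℂ) a * b * inner ℂ w f).re := by
    have : b * ((starRingEnd ℂ) a * inner ℂ w f) = (starRingEnd ℂ) a * b * inner ℂ w f := by ring
    rw [this]
    simp
  rw [e1, e2]
  ring

theorem HIL_inner {n : ℕ} (x y : E n) : inner ℂ x y = ∑ k, y k * (starRingEnd ℂ) (x k) := by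
  rw [PiLp.inner_apply]
  rfl

theorem HIL_nsq {n : ℕ} (x : E n) : ‖x‖ ^ 2 = ∑ k, ‖x k‖ ^ 2 := by
  rw [EuclideanSpace.norm_eq, Real.sq_sqrt (Finset.sum_nonneg fun _ _ => sq_nonneg _)]

/-- The sum of squares. -/
theorem HIL_sum {H : Type*} [NormedAddCommGroup H] [InnerProductSpace ℂ H] {n : ℕ} (X : Fin n → H)
    (w f : H) (u v : E n) (hX : ∑ k, ‖X k‖ ^ 2 ≤ ‖w‖ ^ 2)
    (hw : ∀ k, inner ℂ w (X k) = -(v k)) (hf : ∀ k, inner ℂ f (X k) = -(u k)) (α β : E n) :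
    0 ≤ ‖w‖ ^ 2 + ‖α‖ ^ 2 * ‖w‖ ^ 2 + ‖β‖ ^ 2 * ‖f‖ ^ 2 - 2 * (inner ℂ v α : ℂ).re
      - 2 * (inner ℂ u β : ℂ).re + 2 * (inner ℂ α (inner ℂ w f • β) : ℂ).re := by
  have h0 : 0 ≤ ∑ k, ‖X k + α k • w + β k • f‖ ^ 2 := Finset.sum_nonneg fun _ _ => sq_nonneg _
  simp only [HIL_term _ _ _ _ _ _ _ (hw _) (hf _)] at h0
  rw [Finset.sum_add_distrib, Finset.sum_sub_distrib, Finset.sum_sub_distrib,
    Finset.sum_add_distrib, Finset.sum_add_distrib, ← Finset.sum_mul, ← Finset.sum_mul,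
    ← Finset.mul_sum, ← Finset.mul_sum, ← Finset.mul_sum, ← HIL_nsq, ← HIL_nsq,
    ← Complex.re_sum, ← Complex.re_sum, ← Complex.re_sum, ← HIL_inner, ← HIL_inner] at h0
  have h1 : ∑ k, (starRingEnd ℂ) (α k) * β k * inner ℂ w f = inner ℂ α (inner ℂ w f • β) := by
    rw [HIL_inner]
    refine Finset.sum_congr rfl fun k _ => ?_
    simp only [PiLp.smul_apply, smul_eq_mul]
    ring
  rw [h1] at h0
  linarith

theorem HIL_alg {H : Type*} [NormedAddCommGroup H] [InnerProductSpace ℂ H] {n : ℕ} (X : Fin n → H)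
    (w f : H) (u v : E n) (hu : ‖u‖ = 1) (hv : ‖v‖ = 1) (hX : ∑ k, ‖X k‖ ^ 2 ≤ ‖w‖ ^ 2)
    (hw : ∀ k, inner ℂ w (X k) = -(v k)) (hf : ∀ k, inner ℂ f (X k) = -(u k)) :
    1 ≤ ‖w‖ ^ 2 ∧ 1 ≤ ‖w‖ ^ 2 * ‖f‖ ^ 2 ∧
      0 ≤ ‖f‖ ^ 2 * ‖w‖ ^ 2 - ‖f‖ ^ 2 / ‖w‖ ^ 2 - 1 + ‖(inner ℂ u v : ℂ)‖ ^ 2 / (‖w‖ ^ 2) ^ 2 := by
  set ω : ℝ := ‖w‖ ^ 2 with hω
  set G : ℝ := ‖f‖ ^ 2 with hG
  have hω0 : 0 ≤ ω := sq_nonneg _
  have hG0 : 0 ≤ G := sq_nonneg _
  set τ : ℂ := inner ℂ w f with hτ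
  have hCS : ‖τ‖ ^ 2 ≤ ω * G := by
    rw [hω, hG, ← mul_pow]
    exact pow_le_pow_left₀ (norm_nonneg _) (norm_inner_le_norm w f) 2
  -- `ω > 0`
  have hωpos : 0 < ω := by
    rcases hω0.lt_or_eq with h | h
    · exact h
    · exfalso
      have hw0 : w = 0 := by
        have : ‖w‖ = 0 := by
          have h2 : ‖w‖ ^ 2 = 0 := h.symm
          exact pow_eq_zero_iff (two_ne_zero) |>.1 h2
        exact norm_eq_zero.1 this
      have hv0 : v = 0 := by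
        ext k
        have := hw k
        rw [hw0, inner_zero_left] at this
        simpa using this.symm
      rw [hv0, norm_zero] at hv
      exact zero_ne_one hv
  -- the main inequality
  have main : ∀ β : E n, 0 ≤ ω + ‖β‖ ^ 2 * G - 2 * (inner ℂ u β : ℂ).re - ‖v - τ • β‖ ^ 2 / ω := by
    intro β
    have h := HIL_sum X w f u v hX hw hf (((ω⁻¹ : ℝ) : ℂ) • (v - τ • β)) β
    rw [← hω, ← hG, ← hτ] at h
    have e1 : ‖((ω⁻¹ : ℝ) : ℂ) • (v - τ • β)‖ ^ 2 * ω = ‖v - τ • β‖ ^ 2 / ω := by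
      rw [norm_smul, mul_pow, Complex.norm_real, Real.norm_of_nonneg (inv_nonneg.2 hω0)]
      field_simp
    have e2 : (inner ℂ v (((ω⁻¹ : ℝ) : ℂ) • (v - τ • β)) : ℂ).re -
        (inner ℂ (((ω⁻¹ : ℝ) : ℂ) • (v - τ • β)) (τ • β) : ℂ).re = ‖v - τ • β‖ ^ 2 / ω := by
      rw [inner_smul_right, inner_smul_left, Complex.conj_ofReal, Complex.re_ofReal_mul,
        Complex.re_ofReal_mul, ← mul_sub]
      have e3 : (inner ℂ (v - τ • β) (τ • β) : ℂ).re = (inner ℂ (τ • β) (v - τ • β) : ℂ).re := by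
        rw [← inner_conj_symm, Complex.conj_re]
      rw [e3, ← Complex.sub_re, ← inner_sub_left]
      have e4 : (inner ℂ (v - τ • β) (v - τ • β) : ℂ).re = ‖v - τ • β‖ ^ 2 := by
        rw [inner_self_eq_norm_sq_to_K]
        norm_cast
      rw [e4]
      field_simp
    rw [e1] at h
    have e5 : -(2 * (inner ℂ v (((ω⁻¹ : ℝ) : ℂ) • (v - τ • β)) : ℂ).re) +
        2 * (inner ℂ (((ω⁻¹ : ℝ) : ℂ) • (v - τ • β)) (τ • β) : ℂ).re = -(2 * (‖v - τ • β‖ ^ 2 / ω)) := by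
      rw [← e2]
      ring
    linarith
  have hω1 : 1 ≤ ω := by
    have h := main 0
    rw [norm_zero, inner_zero_right, smul_zero, sub_zero, hv] at h
    simp only [Complex.zero_re] at h
    have h2 : 1 / ω ≤ ω := by
      have : (1 : ℝ) ^ 2 / ω = 1 / ω := by norm_num
      linarith
    rw [div_le_iff₀ hωpos] at h2
    nlinarith
  -- the vector `x`
  set x : E n := u - (((starRingEnd ℂ) τ) / ω) • v with hx
  have hD : 0 ≤ G - ‖τ‖ ^ 2 / ω := by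
    rw [sub_nonneg, div_le_iff₀ hωpos]
    linarith
  have key : ∀ l : ℝ, 0 ≤ ω - 1 / ω + (G - ‖τ‖ ^ 2 / ω) * (l ^ 2 * ‖x‖ ^ 2) - 2 * (l * ‖x‖ ^ 2) := by
    intro l
    have h := main (((l : ℝ) : ℂ) • x)
    have e1 : ‖((l : ℝ) : ℂ) • x‖ ^ 2 = l ^ 2 * ‖x‖ ^ 2 := by
      rw [norm_smul, mul_pow, Complex.norm_real, Real.norm_eq_abs, sq_abs]
    have e2 : ‖v - τ • (((l : ℝ) : ℂ) • x)‖ ^ 2 = 1 - 2 * (l * (τ * inner ℂ v x).re) +
        ‖τ‖ ^ 2 * (l ^ 2 * ‖x‖ ^ 2) := by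
      rw [@norm_sub_sq ℂ (E n) _ _ _, hv, norm_smul, mul_pow, e1, inner_smul_right, inner_smul_right]
      have : τ * (((l : ℝ) : ℂ) * inner ℂ v x) = ((l : ℝ) : ℂ) * (τ * inner ℂ v x) := by ring
      rw [this]
      have : RCLike.re (((l : ℝ) : ℂ) * (τ * inner ℂ v x)) = l * (τ * inner ℂ v x).re := by
        exact Complex.re_ofReal_mul _ _
      rw [this]
      ring
    have e3 : (inner ℂ u (((l : ℝ) : ℂ) • x) : ℂ).re = l * (inner ℂ u x : ℂ).re := by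
      rw [inner_smul_right, Complex.re_ofReal_mul]
    have e4 : (inner ℂ u x : ℂ).re - (τ * inner ℂ v x).re / ω = ‖x‖ ^ 2 := by
      have h1 : (inner ℂ x x : ℂ).re = ‖x‖ ^ 2 := by
        rw [inner_self_eq_norm_sq_to_K]
        norm_cast
      rw [← h1]
      have h2 : inner ℂ x x = inner ℂ u x - (τ / ω) * inner ℂ v x := by
        conv_lhs => rw [hx]
        rw [inner_sub_left, inner_smul_left, ← hx]
        simp
      rw [h2, Complex.sub_re]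
      congr 1
      rw [div_mul_eq_mul_div, Complex.div_ofReal_re]
    rw [e1, e2, e3] at h
    have e5 : ω + l ^ 2 * ‖x‖ ^ 2 * G - 2 * (l * (inner ℂ u x : ℂ).re) -
        (1 - 2 * (l * (τ * inner ℂ v x).re) + ‖τ‖ ^ 2 * (l ^ 2 * ‖x‖ ^ 2)) / ω =
        ω - 1 / ω + (G - ‖τ‖ ^ 2 / ω) * (l ^ 2 * ‖x‖ ^ 2) - 2 * (l * ‖x‖ ^ 2) := by
      rw [← e4]
      field_simp
      ring
    rw [e5] at h
    exact h
  have hx2 : ‖x‖ ^ 2 ≤ (G - ‖τ‖ ^ 2 / ω) * (ω - 1 / ω) := by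
    set D := G - ‖τ‖ ^ 2 / ω
    set S := ‖x‖ ^ 2
    have hS : 0 ≤ S := sq_nonneg _
    have hωω : 0 ≤ ω - 1 / ω := by
      have := key 0
      simpa using this
    rcases hD.lt_or_eq with h | h
    · have h1 := key (1 / D)
      have h2 : ω - 1 / ω + D * ((1 / D) ^ 2 * S) - 2 * (1 / D * S) = ω - 1 / ω - S / D := by
        field_simp
        ring
      rw [h2, sub_nonneg, div_le_iff₀ h] at h1
      linarith
    · rw [← h, zero_mul]
      by_contra hcon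
      push Not at hcon
      have h1 := key ((ω - 1 / ω + 1) / (2 * S))
      rw [← h] at h1
      have h2 : 2 * ((ω - 1 / ω + 1) / (2 * S) * S) = ω - 1 / ω + 1 := by
        field_simp
      rw [h2] at h1
      linarith
  have hx3 : 1 + ‖τ‖ ^ 2 / ω ^ 2 - 2 * (‖τ‖ / ω * ‖(inner ℂ u v : ℂ)‖) ≤ ‖x‖ ^ 2 := by
    rw [hx, @norm_sub_sq ℂ (E n) _ _ _, hu, norm_smul, hv, inner_smul_right]
    have h1 : ‖((starRingEnd ℂ) τ) / (ω : ℂ)‖ = ‖τ‖ / ω := by
      rw [norm_div, RCLike.norm_conj, Complex.norm_real, Real.norm_of_nonneg hω0]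
    have h2 : RCLike.re (((starRingEnd ℂ) τ) / (ω : ℂ) * inner ℂ u v) ≤
        ‖τ‖ / ω * ‖(inner ℂ u v : ℂ)‖ := by
      refine (Complex.re_le_norm _).trans ?_
      rw [norm_mul, h1]
    rw [h1, mul_one, div_pow]
    linarith
  refine ⟨hω1, ?_, ?_⟩
  · -- `1 ≤ ω G`
    have h1 : inner ℂ f (∑ k, (starRingEnd ℂ) (u k) • X k) = -1 := by
      rw [inner_sum]
      have : ∀ k, inner ℂ f ((starRingEnd ℂ) (u k) • X k) = -(u k * (starRingEnd ℂ) (u k)) := by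
        intro k
        rw [inner_smul_right, hf k]
        ring
      simp only [this]
      rw [Finset.sum_neg_distrib, ← HIL_inner, inner_self_eq_norm_sq_to_K, hu]
      norm_num
    have h2 : ‖∑ k, (starRingEnd ℂ) (u k) • X k‖ ^ 2 ≤ ω := by
      have h3 : ‖∑ k, (starRingEnd ℂ) (u k) • X k‖ ≤ ∑ k, ‖u k‖ * ‖X k‖ := by
        refine (norm_sum_le _ _).trans (le_of_eq ?_)
        refine Finset.sum_congr rfl fun k _ => ?_
        rw [norm_smul, RCLike.norm_conj]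
      have h4 : (∑ k, ‖u k‖ * ‖X k‖) ^ 2 ≤ (∑ k, ‖u k‖ ^ 2) * ∑ k, ‖X k‖ ^ 2 :=
        Finset.sum_mul_sq_le_sq_mul_sq _ _ _
      rw [← HIL_nsq, hu, one_pow, one_mul] at h4
      calc ‖∑ k, (starRingEnd ℂ) (u k) • X k‖ ^ 2 ≤ (∑ k, ‖u k‖ * ‖X k‖) ^ 2 :=
            pow_le_pow_left₀ (norm_nonneg _) h3 2
        _ ≤ ∑ k, ‖X k‖ ^ 2 := h4
        _ ≤ ω := hX
    have h5 : 1 ≤ ‖f‖ * ‖∑ k, (starRingEnd ℂ) (u k) • X k‖ := by
      have := norm_inner_le_norm (𝕜 := ℂ) f (∑ k, (starRingEnd ℂ) (u k) • X k)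
      rw [h1, norm_neg, norm_one] at this
      exact this
    calc (1 : ℝ) = 1 ^ 2 := by norm_num
      _ ≤ (‖f‖ * ‖∑ k, (starRingEnd ℂ) (u k) • X k‖) ^ 2 := pow_le_pow_left₀ zero_le_one h5 2
      _ = G * ‖∑ k, (starRingEnd ℂ) (u k) • X k‖ ^ 2 := by rw [mul_pow]
      _ ≤ G * ω := mul_le_mul_of_nonneg_left h2 hG0
      _ = ω * G := mul_comm _ _
  · have h1 := hx3.trans hx2
    set t := ‖τ‖
    set α := ‖(inner ℂ u v : ℂ)‖
    have h2 : (G - t ^ 2 / ω) * (ω - 1 / ω) = G * ω - G / ω - t ^ 2 + t ^ 2 / ω ^ 2 := by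
      field_simp
      ring
    rw [h2] at h1
    have h3 : 0 ≤ (t - α / ω) ^ 2 := sq_nonneg _
    have h4 : (t - α / ω) ^ 2 = t ^ 2 - 2 * (t / ω * α) + α ^ 2 / ω ^ 2 := by
      field_simp
      ring
    linarith

section
variable {n : ℕ} {μ : Measure (E n)}

theorem HIL_ae (hμ : μ (sphere (0 : E n) 1)ᶜ = 0) : ∀ᵐ ζ ∂μ, ‖ζ‖ = 1 := by
  have h : sphere (0 : E n) 1 ∈ ae μ := hμ
  filter_upwards [h] with ζ hζ
  exact mem_sphere_zero_iff_norm.1 hζ

theorem HIL_ev_cont (p : MvPolynomial (Fin n) ℂ) : Continuous (ev p : E n → ℂ) := by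
  unfold ev
  exact (MvPolynomial.continuous_eval p).comp (by fun_prop)

theorem HIL_mem [IsFiniteMeasure μ] (hμ : μ (sphere (0 : E n) 1)ᶜ = 0) {F : E n → ℂ}
    (hF : Continuous F) : MemLp F 2 μ := by
  obtain ⟨C, hC⟩ := (isCompact_sphere (0 : E n) 1).exists_bound_of_continuousOn hF.continuousOn
  refine MemLp.of_bound hF.aestronglyMeasurable C ?_
  filter_upwards [HIL_ae hμ] with ζ hζ
  exact hC ζ (mem_sphere_zero_iff_norm.2 hζ)

theorem HIL_mem_mul (hμ : μ (sphere (0 : E n) 1)ᶜ = 0) {c f : E n → ℂ} (hc : Continuous c)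
    (hb : ∀ ζ, ‖ζ‖ = 1 → ‖c ζ‖ ≤ 1) (hf : MemLp f 2 μ) : MemLp (fun ζ => c ζ * f ζ) 2 μ := by
  refine MemLp.of_le hf (hc.aestronglyMeasurable.mul hf.1) ?_
  filter_upwards [HIL_ae hμ] with ζ hζ
  rw [norm_mul]
  exact mul_le_of_le_one_left (norm_nonneg _) (hb ζ hζ)

theorem HIL_mem_conj {f : E n → ℂ} (hf : MemLp f 2 μ) :
    MemLp (fun ζ => (starRingEnd ℂ) (f ζ)) 2 μ := by
  refine MemLp.of_le hf (Complex.continuous_conj.comp_aestronglyMeasurable hf.1) ?_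
  filter_upwards with ζ
  rw [RCLike.norm_conj]

theorem HIL_coord {ζ : E n} (hζ : ‖ζ‖ = 1) (k : Fin n) : ‖ζ k‖ ≤ 1 := by
  rw [← hζ]
  exact PiLp.norm_apply_le ζ k

theorem HIL_coord_cont (k : Fin n) : Continuous (fun ζ : E n => ζ k) := by fun_prop

/-- The class in `L²` of a polynomial. -/
noncomputable def HIL_P (μ : Measure (E n)) [IsFiniteMeasure μ]
    (hμ : μ (sphere (0 : E n) 1)ᶜ = 0) : MvPolynomial (Fin n) ℂ →ₗ[ℂ] Lp ℂ 2 μ where
  toFun p := (HIL_mem hμ (HIL_ev_cont p)).toLp (ev p)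
  map_add' p q := by
    rw [← MemLp.toLp_add]
    congr 1
    funext ζ
    simp [ev]
  map_smul' c p := by
    simp only [RingHom.id_apply]
    rw [← MemLp.toLp_const_smul]
    congr 1
    funext ζ
    simp [ev]

theorem HIL_P_coe [IsFiniteMeasure μ] (hμ : μ (sphere (0 : E n) 1)ᶜ = 0)
    (p : MvPolynomial (Fin n) ℂ) : (HIL_P μ hμ p : E n → ℂ) =ᵐ[μ] ev p :=
  MemLp.coeFn_toLp (HIL_mem hμ (HIL_ev_cont p))

theorem HIL_in {F : E n → ℂ} (hF : MemLp F 2 μ) (f : Lp ℂ 2 μ) :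
    inner ℂ (hF.toLp F) f = ∫ ζ, (starRingEnd ℂ) (F ζ) * f ζ ∂μ := by
  rw [L2.inner_def]
  refine integral_congr_ae ?_
  filter_upwards [hF.coeFn_toLp] with ζ hζ
  rw [hζ, RCLike.inner_apply, mul_comm]

theorem HIL_nn {F : E n → ℂ} (hF : MemLp F 2 μ) : ‖hF.toLp F‖ ^ 2 = ∫ ζ, ‖F ζ‖ ^ 2 ∂μ := by
  have h := @inner_self_eq_norm_sq_to_K ℂ _ _ _ _ (hF.toLp F)
  rw [HIL_in] at h
  have h2 : ∫ ζ, (starRingEnd ℂ) (F ζ) * (hF.toLp F) ζ ∂μ = ∫ ζ, ((‖F ζ‖ ^ 2 : ℝ) : ℂ) ∂μ := by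
    refine integral_congr_ae ?_
    filter_upwards [hF.coeFn_toLp] with ζ hζ
    rw [hζ, RCLike.conj_mul]
    norm_cast
  have h3 : ∫ ζ, ((‖F ζ‖ ^ 2 : ℝ) : ℂ) ∂μ = ((∫ ζ, ‖F ζ‖ ^ 2 ∂μ : ℝ) : ℂ) := integral_ofReal
  rw [h2, h3] at h
  apply Complex.ofReal_injective
  rw [Complex.ofReal_pow]
  exact h.symm

theorem HIL_pyth {H : Type*} [NormedAddCommGroup H] [InnerProductSpace ℂ H] (x y : H)
    (h : inner ℂ x y = 0) : ‖x + y‖ ^ 2 = ‖x‖ ^ 2 + ‖y‖ ^ 2 := by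
  rw [@norm_add_sq ℂ H _ _ _, h]
  simp

/-- The linear polynomial `inner ℂ e ζ`. -/
noncomputable def HIL_L (e : E n) : MvPolynomial (Fin n) ℂ :=
  ∑ i, MvPolynomial.C ((starRingEnd ℂ) (e i)) * MvPolynomial.X i

theorem HIL_L_ev (e ζ : E n) : ev (HIL_L e) ζ = inner ℂ e ζ := by
  rw [HIL_inner]
  simp only [ev, HIL_L, map_sum, map_mul, MvPolynomial.eval_C, MvPolynomial.eval_X]
  exact Finset.sum_congr rfl fun i _ => mul_comm _ _

theorem HIL_L_V1 (e : E n) : V1 (HIL_L e) := by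
  simp [V1, HIL_L]

theorem HIL_L_lin (e u : E n) : lin (HIL_L e) u = inner ℂ e u := by
  rw [HIL_inner]
  unfold lin HIL_L
  refine Finset.sum_congr rfl fun i _ => ?_
  congr 1
  rw [map_sum, map_sum, Finset.sum_eq_single i]
  · simp
  · intro j _ hj
    simp [MvPolynomial.pderiv_X_of_ne hj]
  · intro h
    exact absurd (Finset.mem_univ i) h

theorem HIL_exist (hPOL : POL_stmt) [IsFiniteMeasure μ] (u v : E n) (hu : ‖u‖ = 1) (hv : ‖v‖ = 1)
    (hμ : μ (sphere (0 : E n) 1)ᶜ = 0)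
    (hyp : ∀ p : MvPolynomial (Fin n) ℂ, V2 p → ∀ e : E n,
      ∫ ζ, ev p ζ * inner ℂ ζ e ∂μ = -(quad p u * inner ℂ v e)) :
    ∃ w g : Lp ℂ 2 μ,
      (∀ e : E n, ‖w‖ ^ 2 * ‖(inner ℂ e u : ℂ)‖ ^ 2 + ‖g‖ ^ 2 * ‖(inner ℂ e v : ℂ)‖ ^ 2 ≤
        ∫ ζ, ‖(inner ℂ e ζ : ℂ)‖ ^ 2 ∂μ) ∧
      (∀ k, ∫ ζ : E n, ζ k * (starRingEnd ℂ) (g ζ) * w ζ ∂μ = -(u k)) ∧
      (∀ k, ∫ ζ : E n, w ζ * w ζ * (starRingEnd ℂ) (ζ k) ∂μ = -(starRingEnd ℂ) (v k)) := by
  obtain ⟨h1, h2, h3, h4, h5, h6, -⟩ := hPOL n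
  set P := HIL_P μ hμ with hP
  have huu : (inner ℂ u u : ℂ) = 1 := by
    rw [inner_self_eq_norm_sq_to_K, hu]
    norm_num
  have hvv : (inner ℂ v v : ℂ) = 1 := by
    rw [inner_self_eq_norm_sq_to_K, hv]
    norm_num
  -- products of polynomials of the class `V1`
  have hXV2 : ∀ (k : Fin n) (p : MvPolynomial (Fin n) ℂ), V1 p → V2 (MvPolynomial.X k * p) :=
    fun k p hp => (h1 _ _ (h6 k).1 hp).1
  have hXq : ∀ (k : Fin n) (p : MvPolynomial (Fin n) ℂ), V1 p →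
      quad (MvPolynomial.X k * p) u = u k * lin p u := by
    intro k p hp
    rw [(h1 _ _ (h6 k).1 hp).2, ((h6 k).2 u).2.1]
  let S₁ : Submodule ℂ (MvPolynomial (Fin n) ℂ) :=
    { carrier := {p | V1 p ∧ lin p u = 0}
      add_mem' := by
        rintro p q ⟨hp, hp'⟩ ⟨hq, hq'⟩
        refine ⟨(h4 0 p q).1 hp hq, ?_⟩
        rw [(h3 0 p q u).2.2.2.1, hp', hq', add_zero]
      zero_mem' := by
        constructor
        · simp [V1]
        · simp [lin]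
      smul_mem' := by
        rintro c p ⟨hp, hp'⟩
        rw [MvPolynomial.smul_eq_C_mul]
        refine ⟨(h4 c p p).2.2.1 hp, ?_⟩
        rw [(h3 c p p u).2.2.2.2.1, hp', mul_zero] }
  let S₂ : Submodule ℂ (MvPolynomial (Fin n) ℂ) :=
    { carrier := {p | V2 p}
      add_mem' := by
        intro p q hp hq
        exact (h4 0 p q).2.1 hp hq
      zero_mem' := by
        constructor
        · simp [V1]
        · intro i
          simp
      smul_mem' := by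
        intro c p hp
        rw [MvPolynomial.smul_eq_C_mul]
        exact (h4 c p p).2.2.2 hp }
  have hS : S₂ ≤ S₁ := fun p hp => ⟨hp.1, h2 p hp u⟩
  set K₁ := (S₁.map P).topologicalClosure with hK₁
  set K₂ := (S₂.map P).topologicalClosure with hK₂
  have hK : K₂ ≤ K₁ := Submodule.topologicalClosure_mono (Submodule.map_mono hS)
  have ho₁ : K₁ᗮ = (S₁.map P)ᗮ := Submodule.orthogonal_closure _
  have ho₂ : K₂ᗮ = (S₂.map P)ᗮ := Submodule.orthogonal_closure _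
  have hmem₁ : ∀ f : Lp ℂ 2 μ, (∀ p, V1 p → lin p u = 0 → inner ℂ f (P p) = 0) → f ∈ K₁ᗮ := by
    intro f hf
    rw [ho₁, Submodule.mem_orthogonal']
    rintro _ ⟨p, hp, rfl⟩
    exact hf p hp.1 hp.2
  have hmem₂ : ∀ f : Lp ℂ 2 μ, (∀ p, V2 p → inner ℂ f (P p) = 0) → f ∈ K₂ᗮ := by
    intro f hf
    rw [ho₂, Submodule.mem_orthogonal']
    rintro _ ⟨p, hp, rfl⟩
    exact hf p hp
  have hPm₁ : ∀ p, V1 p → lin p u = 0 → P p ∈ K₁ := fun p hp hp' =>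
    Submodule.le_topologicalClosure _ ⟨p, ⟨hp, hp'⟩, rfl⟩
  have hPm₂ : ∀ p, V2 p → P p ∈ K₂ := fun p hp =>
    Submodule.le_topologicalClosure _ ⟨p, hp, rfl⟩
  have : CompleteSpace K₁ := Submodule.topologicalClosure.completeSpace _
  have : CompleteSpace K₂ := Submodule.topologicalClosure.completeSpace _
  -- the vectors `V_e`
  have hVP : ∀ (e : E n) (p : MvPolynomial (Fin n) ℂ), V2 p →
      inner ℂ (P (HIL_L e)) (P p) = -(quad p u * inner ℂ v e) := by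
    intro e p hp
    rw [← hyp p hp e, hP]
    show inner ℂ ((HIL_mem hμ (HIL_ev_cont (HIL_L e))).toLp _) _ = _
    rw [HIL_in]
    refine integral_congr_ae ?_
    filter_upwards [HIL_P_coe hμ p] with ζ hζ
    rw [hζ, HIL_L_ev, inner_conj_symm, mul_comm]
  set g := K₂.starProjection (P (HIL_L v)) with hg
  have hgK : g ∈ K₂ := Submodule.starProjection_apply_mem _ _
  have hgo : P (HIL_L v) - g ∈ K₂ᗮ := Submodule.sub_starProjection_mem_orthogonal _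
  set κ := K₁.starProjection (P (HIL_L u)) with hκ
  have hκK : κ ∈ K₁ := Submodule.starProjection_apply_mem _ _
  have hwo : P (HIL_L u) - κ ∈ K₁ᗮ := Submodule.sub_starProjection_mem_orthogonal _
  have hgP : ∀ p, V2 p → inner ℂ g (P p) = -quad p u := by
    intro p hp
    have e1 := (Submodule.mem_orthogonal' _ _).1 hgo (P p) (hPm₂ p hp)
    rw [inner_sub_left, sub_eq_zero, hVP v p hp, hvv, mul_one] at e1
    exact e1.symm
  have hVe : ∀ e : E n, P (HIL_L e) - (inner ℂ e v : ℂ) • g ∈ K₂ᗮ := by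
    intro e
    refine hmem₂ _ fun p hp => ?_
    rw [inner_sub_left, inner_smul_left, hVP e p hp, hgP p hp, inner_conj_symm]
    ring
  refine ⟨P (HIL_L u) - κ, g, ?_, ?_, ?_⟩
  · intro e
    set c : ℂ := inner ℂ e v
    set d : ℂ := inner ℂ e u with hd
    have e0 : ∫ ζ, ‖(inner ℂ e ζ : ℂ)‖ ^ 2 ∂μ = ‖P (HIL_L e)‖ ^ 2 := by
      have h := HIL_nn (HIL_mem hμ (HIL_ev_cont (HIL_L e)))
      simp only [HIL_L_ev] at h
      exact h.symm
    have e1 : ‖P (HIL_L e)‖ ^ 2 = ‖P (HIL_L e) - c • g‖ ^ 2 + ‖c • g‖ ^ 2 := by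
      rw [← HIL_pyth _ _ ((Submodule.mem_orthogonal' _ _).1 (hVe e) _ (K₂.smul_mem c hgK)),
        sub_add_cancel]
    have e2 : P (HIL_L e) - c • g - d • (P (HIL_L u) - κ) ∈ K₁ := by
      have e3 : P (HIL_L e) - c • g - d • (P (HIL_L u) - κ) =
          P (HIL_L e + (-d) • HIL_L u) - c • g + d • κ := by
        rw [map_add, map_smul]
        module
      rw [e3]
      refine K₁.add_mem (K₁.sub_mem (hPm₁ _ ?_ ?_) (K₁.smul_mem _ (hK hgK))) (K₁.smul_mem _ hκK)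
      · rw [MvPolynomial.smul_eq_C_mul]
        exact (h4 0 _ _).1 (HIL_L_V1 e) ((h4 (-d) (HIL_L u) (HIL_L u)).2.2.1 (HIL_L_V1 u))
      · rw [MvPolynomial.smul_eq_C_mul, (h3 0 _ _ u).2.2.2.1, (h3 (-d) _ 0 u).2.2.2.2.1, HIL_L_lin,
          HIL_L_lin, huu, ← hd]
        ring
    have e4 : ‖P (HIL_L e) - c • g‖ ^ 2 =
        ‖P (HIL_L e) - c • g - d • (P (HIL_L u) - κ)‖ ^ 2 + ‖d • (P (HIL_L u) - κ)‖ ^ 2 := by
      rw [← HIL_pyth _ _ ((Submodule.mem_orthogonal _ _).1 (K₁ᗮ.smul_mem d hwo) _ e2),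
        sub_add_cancel]
    rw [e0, e1, e4, norm_smul, norm_smul, mul_pow, mul_pow]
    nlinarith [sq_nonneg ‖P (HIL_L e) - c • g - d • (P (HIL_L u) - κ)‖]
  · intro k
    have hc : Continuous (fun ζ : E n => (starRingEnd ℂ) (ζ k)) :=
      Complex.continuous_conj.comp (HIL_coord_cont k)
    have hb : ∀ ζ : E n, ‖ζ‖ = 1 → ‖(starRingEnd ℂ) (ζ k)‖ ≤ 1 := fun ζ hζ => by
      rw [RCLike.norm_conj]
      exact HIL_coord hζ k
    set Gk := (HIL_mem_mul hμ hc hb (Lp.memLp g)).toLp _ with hGk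
    have e1 : ∀ f : Lp ℂ 2 μ, inner ℂ Gk f = ∫ ζ, ζ k * (starRingEnd ℂ) (g ζ) * f ζ ∂μ := by
      intro f
      rw [hGk, HIL_in]
      refine integral_congr_ae ?_
      filter_upwards with ζ
      rw [map_mul, Complex.conj_conj]
    have e2 : ∀ p, V1 p → inner ℂ Gk (P p) = -(u k * lin p u) := by
      intro p hp
      rw [e1, ← hXq k p hp, ← hgP _ (hXV2 k p hp), L2.inner_def]
      refine integral_congr_ae ?_
      filter_upwards [HIL_P_coe hμ p, HIL_P_coe hμ (MvPolynomial.X k * p)] with ζ hζ hζ'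
      rw [hζ, hζ', RCLike.inner_apply, (h3 0 _ _ ζ).2.1, ((h6 k).2 ζ).1]
      ring
    have e3 : Gk ∈ K₁ᗮ := hmem₁ _ fun p hp hp' => by rw [e2 p hp, hp', mul_zero, neg_zero]
    rw [← e1, inner_sub_right, (Submodule.mem_orthogonal' _ _).1 e3 κ hκK, e2 _ (HIL_L_V1 u),
      HIL_L_lin, huu, mul_one, sub_zero]
  · intro k
    have hT : ∀ f : Lp ℂ 2 μ, MemLp (fun ζ : E n => ζ k * (starRingEnd ℂ) (f ζ)) 2 μ := fun f =>
      HIL_mem_mul hμ (HIL_coord_cont k) (fun ζ hζ => HIL_coord hζ k) (HIL_mem_conj (Lp.memLp f))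
    have e1 : ∀ f h : Lp ℂ 2 μ, inner ℂ ((hT f).toLp _) h =
        ∫ ζ, f ζ * h ζ * (starRingEnd ℂ) (ζ k) ∂μ := by
      intro f h
      rw [HIL_in]
      refine integral_congr_ae ?_
      filter_upwards with ζ
      rw [map_mul, Complex.conj_conj]
      ring
    have e2 : ∀ f h : Lp ℂ 2 μ, (inner ℂ ((hT f).toLp _) h : ℂ) = inner ℂ ((hT h).toLp _) f := by
      intro f h
      rw [e1, e1]
      refine integral_congr_ae ?_
      filter_upwards with ζ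
      ring
    have hk1 : ∀ x : E n, (inner ℂ x (EuclideanSpace.single k (1 : ℂ)) : ℂ) =
        (starRingEnd ℂ) (x k) := by
      intro x
      rw [EuclideanSpace.inner_single_right, one_mul]
    have e3 : ∀ p q, V1 p → V1 q → inner ℂ ((hT (P p)).toLp _) (P q) =
        -(lin p u * lin q u * (starRingEnd ℂ) (v k)) := by
      intro p q hp hq
      have h7 := hyp (p * q) (h1 p q hp hq).1 (EuclideanSpace.single k (1 : ℂ))
      rw [hk1, (h1 p q hp hq).2] at h7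
      rw [e1, ← h7]
      refine integral_congr_ae ?_
      filter_upwards [HIL_P_coe hμ p, HIL_P_coe hμ q] with ζ hζ hζ'
      rw [hζ, hζ', hk1, (h3 0 _ _ ζ).2.1]
    have e4 : ∀ q, V1 q → inner ℂ ((hT (P q)).toLp _) κ = 0 := by
      intro q hq
      refine (Submodule.mem_orthogonal' _ _).1 (hmem₁ _ fun p hp hp' => ?_) κ hκK
      rw [e3 q p hq hp, hp']
      ring
    have e5 : inner ℂ ((hT κ).toLp _) κ = 0 := by
      refine (Submodule.mem_orthogonal' _ _).1 (hmem₁ _ fun p hp hp' => ?_) κ hκK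
      rw [e2, e4 p hp]
    rw [← e1, inner_sub_right, e2 _ (P (HIL_L u)), e2 _ κ, inner_sub_right, inner_sub_right,
      e3 _ _ (HIL_L_V1 u) (HIL_L_V1 u), e4 _ (HIL_L_V1 u), e5, e2 κ, e4 _ (HIL_L_V1 u), HIL_L_lin, huu]
    ring

theorem HIL_int [IsFiniteMeasure μ] (hμ : μ (sphere (0 : E n) 1)ᶜ = 0) {F : E n → ℝ}
    (hF : Continuous F) : Integrable F μ := by
  obtain ⟨C, hC⟩ := (isCompact_sphere (0 : E n) 1).exists_bound_of_continuousOn hF.continuousOn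
  refine Integrable.of_bound hF.aestronglyMeasurable C ?_
  filter_upwards [HIL_ae hμ] with ζ hζ
  exact hC ζ (mem_sphere_zero_iff_norm.2 hζ)

theorem HIL_pos [IsFiniteMeasure μ] (hμ : μ (sphere (0 : E n) 1)ᶜ = 0) (A : E n →L[ℂ] E n)
    (hA : ∀ x : E n, 0 ≤ qA A x) (ω G : ℝ) (u v : E n)
    (h : ∀ e : E n, ω * ‖(inner ℂ e u : ℂ)‖ ^ 2 + G * ‖(inner ℂ e v : ℂ)‖ ^ 2 ≤
      ∫ ζ, ‖(inner ℂ e ζ : ℂ)‖ ^ 2 ∂μ) :
    ω * qA A u + G * qA A v ≤ ∫ ζ, qA A ζ ∂μ := by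
  set T : E n →L[ℂ] E n := (1 / 2 : ℂ) • (A + ContinuousLinearMap.adjoint A) with hT
  have hTx : ∀ x : E n, T x = (1 / 2 : ℂ) • (A x + ContinuousLinearMap.adjoint A x) := fun x => rfl
  have hsym : (T : E n →ₗ[ℂ] E n).IsSymmetric := by
    intro x y
    show inner ℂ (T x) y = inner ℂ x (T y)
    rw [hTx, hTx, inner_smul_left, inner_smul_right, inner_add_left, inner_add_right,
      ContinuousLinearMap.adjoint_inner_left, ContinuousLinearMap.adjoint_inner_right]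
    have : (starRingEnd ℂ) (1 / 2 : ℂ) = 1 / 2 := by
      rw [map_div₀, map_one]
      congr 1
      exact Complex.conj_ofNat 2
    rw [this]
    ring
  have hqT : ∀ x : E n, qA A x = (inner ℂ x (T x) : ℂ).re := by
    intro x
    rw [hTx, inner_smul_right, inner_add_right, ContinuousLinearMap.adjoint_inner_right]
    have e1 : (inner ℂ (A x) x : ℂ) = (starRingEnd ℂ) (inner ℂ x (A x)) := (inner_conj_symm _ _).symm
    rw [e1, Complex.add_conj]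
    have e2 : (1 / 2 : ℂ) * ((2 * (inner ℂ x (A x) : ℂ).re : ℝ) : ℂ) =
        (((inner ℂ x (A x) : ℂ).re : ℝ) : ℂ) := by
      push_cast
      ring
    rw [e2, Complex.ofReal_re]
    rfl
  have hn : Module.finrank ℂ (E n) = n := by simp
  set b := hsym.eigenvectorBasis hn with hb
  set l := hsym.eigenvalues hn with hl
  have hTb : ∀ i, T (b i) = (l i : ℂ) • b i := fun i => hsym.apply_eigenvectorBasis hn i
  have hq : ∀ x : E n, qA A x = ∑ i, l i * ‖(inner ℂ (b i) x : ℂ)‖ ^ 2 := by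
    intro x
    rw [hqT, ← b.sum_inner_mul_inner, Complex.re_sum]
    refine Finset.sum_congr rfl fun i _ => ?_
    have e1 : (inner ℂ (b i) (T x) : ℂ) = (l i : ℂ) * inner ℂ (b i) x := by
      have := hsym (b i) x
      have e2 : inner ℂ (T (b i)) x = inner ℂ (b i) (T x) := this
      rw [← e2, hTb, inner_smul_left, Complex.conj_ofReal]
    rw [e1]
    have e3 : (inner ℂ x (b i) : ℂ) * ((l i : ℂ) * inner ℂ (b i) x) =
        (l i : ℂ) * ((starRingEnd ℂ) (inner ℂ (b i) x) * inner ℂ (b i) x) := by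
      rw [inner_conj_symm]
      ring
    rw [e3, RCLike.conj_mul, Complex.re_ofReal_mul]
    congr 1
    norm_cast
  have hl0 : ∀ i, 0 ≤ l i := by
    intro i
    have h1 := hA (b i)
    rw [hqT, hTb, inner_smul_right, inner_self_eq_norm_sq_to_K, b.norm_eq_one i] at h1
    simpa using h1
  have h1 : ∫ ζ, qA A ζ ∂μ = ∑ i, l i * ∫ ζ, ‖(inner ℂ (b i) ζ : ℂ)‖ ^ 2 ∂μ := by
    simp only [hq]
    rw [integral_finsetSum]
    · refine Finset.sum_congr rfl fun i _ => ?_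
      rw [integral_const_mul]
    · intro i _
      exact HIL_int hμ (by fun_prop)
  rw [h1, hq u, hq v, Finset.mul_sum, Finset.mul_sum, ← Finset.sum_add_distrib]
  refine Finset.sum_le_sum fun i _ => ?_
  have := mul_le_mul_of_nonneg_left (h (b i)) (hl0 i)
  linarith

theorem HIL_nn' (f : Lp ℂ 2 μ) : ‖f‖ ^ 2 = ∫ ζ, ‖f ζ‖ ^ 2 ∂μ := by
  have h := HIL_nn (Lp.memLp f)
  rwa [Lp.toLp_coeFn] at h

end

theorem HIL (hPOL : POL_stmt) : HIL_stmt := by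
  intro n μ hfin u v hu hv hμ hyp
  obtain ⟨w, g, hV, hg, hw⟩ := HIL_exist hPOL u v hu hv hμ hyp
  -- the vectors `X k` and `f`
  have hX : ∀ k : Fin n, MemLp (fun ζ : E n => ζ k * (starRingEnd ℂ) (w ζ)) 2 μ := fun k =>
    HIL_mem_mul hμ (HIL_coord_cont k) (fun ζ hζ => HIL_coord hζ k) (HIL_mem_conj (Lp.memLp w))
  have hwm : Measurable (w : E n → ℂ) := (Lp.stronglyMeasurable w).measurable
  have hgm : Measurable (g : E n → ℂ) := (Lp.stronglyMeasurable g).measurable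
  have hFb : ∀ ζ, ‖g ζ * ((starRingEnd ℂ) (w ζ) / w ζ)‖ ≤ ‖g ζ‖ := by
    intro ζ
    rw [norm_mul, norm_div, RCLike.norm_conj]
    refine mul_le_of_le_one_right (norm_nonneg _) ?_
    exact div_self_le_one _
  have hF : MemLp (fun ζ => g ζ * ((starRingEnd ℂ) (w ζ) / w ζ)) 2 μ := by
    refine MemLp.of_le (Lp.memLp g) ?_ (ae_of_all _ hFb)
    exact (hgm.mul ((Complex.continuous_conj.measurable.comp hwm).div hwm)).aestronglyMeasurable
  have h1 : ∀ k, inner ℂ w ((hX k).toLp _) = -(v k) := by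
    intro k
    rw [L2.inner_def]
    have e1 : ∫ ζ, inner ℂ (w ζ) (((hX k).toLp _ : Lp ℂ 2 μ) ζ) ∂μ =
        ∫ ζ : E n, (starRingEnd ℂ) (w ζ * w ζ * (starRingEnd ℂ) (ζ k)) ∂μ := by
      refine integral_congr_ae ?_
      filter_upwards [(hX k).coeFn_toLp] with ζ hζ
      rw [hζ, RCLike.inner_apply, map_mul, map_mul, Complex.conj_conj]
      ring
    rw [e1, integral_conj, hw k, map_neg, Complex.conj_conj]
  have h2 : ∀ k, inner ℂ (hF.toLp _) ((hX k).toLp _) = -(u k) := by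
    intro k
    rw [HIL_in, ← hg k]
    refine integral_congr_ae ?_
    filter_upwards [(hX k).coeFn_toLp] with ζ hζ
    rw [hζ, map_mul, map_div₀, Complex.conj_conj]
    rcases eq_or_ne (w ζ) 0 with h0 | h0
    · rw [h0]
      simp
    · have h0' : (starRingEnd ℂ) (w ζ) ≠ 0 := by
        rwa [Ne, map_eq_zero]
      field_simp
  have h3 : ∑ k, ‖(hX k).toLp _‖ ^ 2 ≤ ‖w‖ ^ 2 := by
    have e1 : ∀ k : Fin n, ‖(hX k).toLp _‖ ^ 2 = ∫ ζ : E n, ‖ζ k‖ ^ 2 * ‖w ζ‖ ^ 2 ∂μ := by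
      intro k
      rw [HIL_nn]
      refine integral_congr_ae ?_
      filter_upwards with ζ
      rw [norm_mul, RCLike.norm_conj, mul_pow]
    simp only [e1]
    rw [HIL_nn' w, ← integral_finsetSum]
    · refine le_of_eq (integral_congr_ae ?_)
      filter_upwards [HIL_ae hμ] with ζ hζ
      rw [← Finset.sum_mul, ← HIL_nsq, hζ]
      ring
    · intro k _
      have h4 : Integrable (fun ζ : E n => ‖ζ k * (starRingEnd ℂ) (w ζ)‖ ^ 2) μ :=
        (memLp_two_iff_integrable_sq_norm (hX k).1).1 (hX k)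
      refine h4.congr ?_
      filter_upwards with ζ
      rw [norm_mul, RCLike.norm_conj, mul_pow]
  obtain ⟨hω1, hωG, hR⟩ := HIL_alg (fun k => (hX k).toLp _) w (hF.toLp _) u v hu hv h3 h1 h2
  have hGG : ‖hF.toLp _‖ ^ 2 ≤ ‖g‖ ^ 2 := by
    refine pow_le_pow_left₀ (norm_nonneg _) ?_ 2
    refine Lp.norm_le_norm_of_ae_le ?_
    filter_upwards [hF.coeFn_toLp] with ζ hζ
    rw [hζ]
    exact hFb ζ
  set ω : ℝ := ‖w‖ ^ 2 with hω
  set G : ℝ := ‖g‖ ^ 2 with hG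
  generalize ‖hF.toLp _‖ ^ 2 = G' at hωG hR hGG
  have hω0 : 0 < ω := by linarith
  have hωG1 : 1 ≤ ω * G := hωG.trans (mul_le_mul_of_nonneg_left hGG hω0.le)
  have hG0 : 0 < G := by
    by_contra hcon
    push Not at hcon
    nlinarith
  set α : ℝ := ‖(inner ℂ u v : ℂ)‖
  have hR2 : 0 ≤ G * ω - G / ω - 1 + α ^ 2 / ω ^ 2 := by
    have e1 : 0 ≤ (G - G') * (ω - 1 / ω) := by
      refine mul_nonneg (sub_nonneg.2 hGG) ?_
      rw [sub_nonneg, div_le_iff₀ hω0]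
      nlinarith
    have e2 : (G - G') * (ω - 1 / ω) = G * ω - G / ω - (G' * ω - G' / ω) := by
      field_simp
    linarith
  have hs : 1 ≤ Real.sqrt (ω * G) := by
    rw [Real.one_le_sqrt]
    exact hωG1
  have hs2 : Real.sqrt (ω * G) ^ 2 = ω * G := Real.sq_sqrt (by positivity)
  have hspos : 0 < Real.sqrt (ω * G) := by linarith
  refine ⟨1 / Real.sqrt (ω * G), 1 / ω, ⟨by positivity, by positivity, ?_, ?_, ?_⟩, ?_⟩
  · rw [hu, mul_one, div_le_one hspos]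
    exact hs
  · rw [hv, mul_one, div_le_one hω0]
    exact hω1
  · rw [hu, hv, mul_one, mul_one, mul_pow, mul_pow, div_pow, div_pow, hs2, one_pow]
    have e1 : 1 + 1 / (ω * G) * (1 / ω ^ 2) * α ^ 2 - (1 / (ω * G) + 1 / ω ^ 2) =
        (G * ω - G / ω - 1 + α ^ 2 / ω ^ 2) / (ω * G) := by
      field_simp
      ring
    have e2 : 0 ≤ (G * ω - G / ω - 1 + α ^ 2 / ω ^ 2) / (ω * G) := div_nonneg hR2 (by positivity)
    linarith
  · intro A hA
    have h5 := HIL_pos hμ A hA ω G u v hV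
    unfold cost
    rw [div_pow, hs2, one_pow]
    have e1 : qA A u / (1 / ω) + 1 / ω * qA A v / (1 / (ω * G)) = ω * qA A u + G * qA A v := by
      field_simp
    rw [e1]
    exact h5

end Pool.Agent.helper64.QF
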